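import Mathlib
import Pool.Agent.V1181.Lap

/-!
# Liouville supersolutions with large area and a short dividing line
-/

set_option autoImplicit false

namespace Pool.Agent.Results.MP_c070b6_an.LargeArea

open Pool.Agent.V1181
open Set Filter Topology MeasureTheory InnerProductSpace Laplacian
open scoped ENNReal

noncomputable section

/-- A smooth domain of the plane: nonempty, connected, open, and near each boundary point, in
suitably rotated coordinates, the region on one side of the graph of a smooth function. -/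
def IsSmoothDomain (Ω : Set ℂ) : Prop :=
  IsOpen Ω ∧ IsConnected Ω ∧ ∀ p ∈ frontier Ω, ∃ ρ : ℝ, 0 < ρ ∧ ∃ ω : ℂ, ‖ω‖ = 1 ∧
    ∃ h : ℝ → ℝ, ContDiff ℝ (⊤ : ℕ∞) h ∧
      ∀ z ∈ Metric.ball p ρ, z ∈ Ω ↔ h (ω * z).im < (ω * z).re

/-- The `g`-area of `E` for `g = e^{2u} δ`. -/
def area (u : ℂ → ℝ) (E : Set ℂ) : ℝ≥0∞ := ∫⁻ z in E, ENNReal.ofReal (Real.exp (2 * u z))

/-- The `g`-length of the boundary of `Ω` for `g = e^{2u} δ`. -/
def len (u : ℂ → ℝ) (Ω : Set ℂ) : ℝ≥0∞ :=
  ∫⁻ z in frontier Ω, ENNReal.ofReal (Real.exp (u z)) ∂(Measure.hausdorffMeasure 1)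

/-- The supersolution. -/
def u (ε : ℝ) (z : ℂ) : ℝ := -Real.log (Real.cosh z.re) - ε * (√(1 + z.im ^ 2) - 1)

theorem re_smooth : ContDiff ℝ (⊤ : ℕ∞) (fun z : ℂ => z.re) := Complex.reCLM.contDiff
theorem im_smooth : ContDiff ℝ (⊤ : ℕ∞) (fun z : ℂ => z.im) := Complex.imCLM.contDiff

theorem u_smooth (ε : ℝ) : ContDiff ℝ (⊤ : ℕ∞) (u ε) := by
  unfold u
  have h1 : ContDiff ℝ (⊤ : ℕ∞) (fun z : ℂ => Real.log (Real.cosh z.re)) := by
    rw [contDiff_iff_contDiffAt]
    intro z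
    refine ContDiffAt.log ?_ (Real.cosh_pos _).ne'
    exact (Real.contDiff_cosh.comp re_smooth).contDiffAt
  have h2 : ContDiff ℝ (⊤ : ℕ∞) (fun z : ℂ => √(1 + z.im ^ 2)) := by
    rw [contDiff_iff_contDiffAt]
    intro z
    refine ContDiffAt.sqrt ?_ (by positivity)
    exact (contDiff_const.add (im_smooth.pow 2)).contDiffAt
  exact h1.neg.sub (contDiff_const.mul (h2.sub contDiff_const))

theorem lap_u (ε : ℝ) (z : ℂ) :
    Δ (u ε) z = -(1 / Real.cosh z.re ^ 2) + -(ε / √(1 + z.im ^ 2) ^ 3) := by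
  have hb : ∀ i : Fin 2, (Complex.orthonormalBasisOneI i) = ![1, Complex.I] i := by
    intro i
    rw [← Complex.coe_orthonormalBasisOneI]
  have hc : ∀ s : ℝ, Real.cosh s ≠ 0 := fun s => (Real.cosh_pos s).ne'
  have hq : ∀ s : ℝ, 0 < 1 + s ^ 2 := fun s => by positivity
  have hs : ∀ s : ℝ, √(1 + s ^ 2) ≠ 0 := fun s => (Real.sqrt_pos.mpr (hq s)).ne'
  have d1 : ∀ s : ℝ, HasDerivAt (fun s => -Real.log (Real.cosh s)) (-(Real.sinh s / Real.cosh s)) s :=
    fun s => ((Real.hasDerivAt_cosh s).log (hc s)).neg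
  have d2 : ∀ s : ℝ, HasDerivAt (fun s => -(Real.sinh s / Real.cosh s)) (-(1 / Real.cosh s ^ 2)) s := by
    intro s
    have h := ((Real.hasDerivAt_sinh s).fun_div (Real.hasDerivAt_cosh s) (hc s)).neg
    refine h.congr_deriv ?_
    rw [← Real.cosh_sq_sub_sinh_sq s]
    ring
  have d3 : ∀ s : ℝ, HasDerivAt (fun s : ℝ => √(1 + s ^ 2)) (s / √(1 + s ^ 2)) s := by
    intro s
    have h0 : HasDerivAt (fun s : ℝ => 1 + s ^ 2) (2 * s) s := by
      simpa using (hasDerivAt_pow 2 s).const_add 1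
    have h := h0.sqrt (hq s).ne'
    refine h.congr_deriv ?_
    field_simp
  have d4 : ∀ s : ℝ, HasDerivAt (fun s : ℝ => s / √(1 + s ^ 2)) (1 / √(1 + s ^ 2) ^ 3) s := by
    intro s
    have h := (hasDerivAt_id s).fun_div (d3 s) (hs s)
    refine h.congr_deriv ?_
    have h2 : √(1 + s ^ 2) ^ 2 = 1 + s ^ 2 := Real.sq_sqrt (hq s).le
    have h3 := hs s
    simp only [id]
    field_simp
    rw [h2]
    ring
  have hre : ∀ (y : ℂ), HasDerivAt (fun t : ℝ => (y + t • (1 : ℂ)).re) 1 0 := by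
    intro y
    have : (fun t : ℝ => (y + t • (1 : ℂ)).re) = fun t : ℝ => y.re + t := by funext t; simp
    rw [this]
    simpa using (hasDerivAt_id (0 : ℝ)).const_add y.re
  have him : ∀ (y : ℂ), HasDerivAt (fun t : ℝ => (y + t • Complex.I).im) 1 0 := by
    intro y
    have : (fun t : ℝ => (y + t • Complex.I).im) = fun t : ℝ => y.im + t := by funext t; simp
    rw [this]
    simpa using (hasDerivAt_id (0 : ℝ)).const_add y.im
  rw [lap_eq Complex.orthonormalBasisOneI ((contDiff_infty.1 (u_smooth ε) 2).contDiffAt)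
    (![fun y => -(Real.sinh y.re / Real.cosh y.re), fun y => -(ε * (y.im / √(1 + y.im ^ 2)))])
    (![-(1 / Real.cosh z.re ^ 2), -(ε / √(1 + z.im ^ 2) ^ 3)])]
  · simp
  · intro i
    filter_upwards with y
    rw [hb]
    fin_cases i
    · have h1 : HasDerivAt (fun s => -Real.log (Real.cosh s)) (-(Real.sinh y.re / Real.cosh y.re))
          ((y + (0 : ℝ) • (1 : ℂ)).re) := by simpa using d1 y.re
      have h2 := h1.comp (0 : ℝ) (hre y)
      have h3 : (fun t : ℝ => u ε (y + t • (1 : ℂ)))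
          = fun t : ℝ => (-Real.log (Real.cosh (y + t • (1 : ℂ)).re))
            - ε * (√(1 + y.im ^ 2) - 1) := by
        funext t; simp [u]
      show HasDerivAt (fun t : ℝ => u ε (y + t • (1 : ℂ))) (-(Real.sinh y.re / Real.cosh y.re)) 0
      rw [h3]
      have h4 := h2.sub_const (ε * (√(1 + y.im ^ 2) - 1))
      refine h4.congr_deriv ?_
      ring
    · have h1 : HasDerivAt (fun s : ℝ => √(1 + s ^ 2)) (y.im / √(1 + y.im ^ 2))
          ((y + (0 : ℝ) • Complex.I).im) := by simpa using d3 y.im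
      have h2 := h1.comp (0 : ℝ) (him y)
      have h3 : (fun t : ℝ => u ε (y + t • Complex.I))
          = fun t : ℝ => -Real.log (Real.cosh y.re)
            - ε * (√(1 + (y + t • Complex.I).im ^ 2) - 1) := by
        funext t; simp [u]
      show HasDerivAt (fun t : ℝ => u ε (y + t • Complex.I)) (-(ε * (y.im / √(1 + y.im ^ 2)))) 0
      rw [h3]
      have h4 := ((h2.sub_const 1).const_mul ε).const_sub (-Real.log (Real.cosh y.re))
      refine h4.congr_deriv ?_
      ring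
  · intro i
    rw [hb]
    fin_cases i
    · have h1 : HasDerivAt (fun s => -(Real.sinh s / Real.cosh s)) (-(1 / Real.cosh z.re ^ 2))
          ((z + (0 : ℝ) • (1 : ℂ)).re) := by simpa using d2 z.re
      have h2 := h1.comp (0 : ℝ) (hre z)
      refine h2.congr_deriv ?_
      simp
    · have h1 : HasDerivAt (fun s : ℝ => s / √(1 + s ^ 2)) (1 / √(1 + z.im ^ 2) ^ 3)
          ((z + (0 : ℝ) • Complex.I).im) := by simpa using d4 z.im
      have h2 := ((h1.comp (0 : ℝ) (him z)).const_mul ε).neg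
      refine h2.congr_deriv ?_
      simp
      ring

theorem exp_2u (ε : ℝ) (z : ℂ) : Real.exp (2 * u ε z)
    = 1 / Real.cosh z.re ^ 2 * Real.exp (-(2 * ε * (√(1 + z.im ^ 2) - 1))) := by
  have hc := Real.cosh_pos z.re
  rw [show 2 * u ε z = -(2 * Real.log (Real.cosh z.re)) + -(2 * ε * (√(1 + z.im ^ 2) - 1)) by
    unfold u; ring, Real.exp_add, Real.exp_neg (2 * _)]
  congr 1
  rw [two_mul, Real.exp_add, Real.exp_log hc, one_div, sq]

theorem super (ε : ℝ) (hε : 0 ≤ ε) (z : ℂ) : Δ (u ε) z + Real.exp (2 * u ε z) ≤ 0 := by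
  rw [lap_u, exp_2u]
  have hc := Real.cosh_pos z.re
  have h1 : 0 ≤ ε / √(1 + z.im ^ 2) ^ 3 := by positivity
  have h2 : 1 ≤ √(1 + z.im ^ 2) := by
    rw [Real.one_le_sqrt]; nlinarith [sq_nonneg z.im]
  have h3 : Real.exp (-(2 * ε * (√(1 + z.im ^ 2) - 1))) ≤ 1 := by
    rw [Real.exp_le_one_iff]
    have : 0 ≤ 2 * ε * (√(1 + z.im ^ 2) - 1) := by
      apply mul_nonneg (by positivity); linarith
    linarith
  have h4 : 0 < 1 / Real.cosh z.re ^ 2 := by positivity
  nlinarith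

/-! ### Areas -/

/-- The factor depending on the real part. -/
def φ (x : ℝ) : ℝ≥0∞ := ENNReal.ofReal (1 / Real.cosh x ^ 2)

/-- The factor depending on the imaginary part. -/
def ψ (ε y : ℝ) : ℝ≥0∞ := ENNReal.ofReal (Real.exp (-(2 * ε * (√(1 + y ^ 2) - 1))))

theorem φ_meas : Measurable φ := by
  unfold φ
  have := Real.continuous_cosh.measurable
  fun_prop

theorem ψ_meas (ε : ℝ) : Measurable (ψ ε) := by
  unfold ψ
  fun_prop

theorem area_strip (ε : ℝ) {S : Set ℝ} (hS : MeasurableSet S) :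
    area (u ε) (Complex.im ⁻¹' S) = (∫⁻ x, φ x) * ∫⁻ y in S, ψ ε y := by
  have hmp := Complex.volume_preserving_equiv_real_prod
  have hset : Complex.im ⁻¹' S = Complex.measurableEquivRealProd ⁻¹' (univ ×ˢ S) := by
    ext z; simp [Complex.measurableEquivRealProd_apply]
  have hf : Measurable fun p : ℝ × ℝ => φ p.1 * ψ ε p.2 :=
    (φ_meas.comp measurable_fst).mul ((ψ_meas ε).comp measurable_snd)
  have h1 : ∀ z : ℂ, ENNReal.ofReal (Real.exp (2 * u ε z))
      = (fun p : ℝ × ℝ => φ p.1 * ψ ε p.2) (Complex.measurableEquivRealProd z) := by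
    intro z
    rw [exp_2u, ENNReal.ofReal_mul (by have := Real.cosh_pos z.re; positivity)]
    rfl
  rw [area, hset]
  simp only [h1]
  rw [hmp.setLIntegral_comp_preimage (MeasurableSet.univ.prod hS) hf, Measure.volume_eq_prod,
    ← Measure.prod_restrict, lintegral_prod_mul φ_meas.aemeasurable (ψ_meas ε).aemeasurable,
    Measure.restrict_univ]

theorem cosh_le (x : ℝ) (hx : 0 ≤ x) : Real.cosh x ≤ Real.exp x := by
  rw [Real.cosh_eq]
  have : Real.exp (-x) ≤ Real.exp x := Real.exp_le_exp.mpr (by linarith)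
  linarith

theorem φ_lower : ENNReal.ofReal (1 / 2) ≤ ∫⁻ x, φ x := by
  have h1 : ∫⁻ x in Ioi (0 : ℝ), ENNReal.ofReal (Real.exp (-2 * x)) = ENNReal.ofReal (1 / 2) := by
    rw [← ofReal_integral_eq_lintegral_ofReal (integrableOn_exp_mul_Ioi (by norm_num) 0)
      (ae_of_all _ fun x => (Real.exp_pos _).le), integral_exp_mul_Ioi (by norm_num)]
    norm_num
  rw [← h1]
  refine le_trans (setLIntegral_mono φ_meas fun x hx => ?_) (setLIntegral_le_lintegral _ _)
  have hx0 : 0 ≤ x := le_of_lt hx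
  refine ENNReal.ofReal_le_ofReal ?_
  have h2 := cosh_le x hx0
  have h3 := Real.cosh_pos x
  have h4 : Real.exp (-2 * x) = 1 / Real.exp x ^ 2 := by
    rw [one_div, ← Real.exp_nat_mul, ← Real.exp_neg]
    norm_num
  rw [h4]
  gcongr

theorem one_add_sq_le (x : ℝ) : 1 + x ^ 2 ≤ Real.cosh x ^ 2 := by
  rw [Real.cosh_sq]
  have h1 : x ^ 2 ≤ Real.sinh x ^ 2 := by
    rw [sq_le_sq]
    rw [Real.abs_sinh]
    exact Real.self_le_sinh_iff.mpr (abs_nonneg x)
  linarith

theorem φ_lt_top : ∫⁻ x, φ x < ∞ := by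
  have h1 : ∫⁻ x, φ x ≤ ∫⁻ x : ℝ, ENNReal.ofReal ((1 + x ^ 2)⁻¹) := by
    refine lintegral_mono fun x => ENNReal.ofReal_le_ofReal ?_
    rw [one_div]
    have := one_add_sq_le x
    gcongr
  refine lt_of_le_of_lt h1 ?_
  have h2 := integrable_inv_one_add_sq.lintegral_lt_top
  exact h2

theorem sqrt_le (y : ℝ) : √(1 + y ^ 2) - 1 ≤ |y| := by
  have h : √(1 + y ^ 2) ≤ 1 + |y| := by
    rw [Real.sqrt_le_left (by positivity)]
    have := sq_abs y
    nlinarith [abs_nonneg y]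
  linarith

theorem le_sqrt (y : ℝ) : |y| - 1 ≤ √(1 + y ^ 2) - 1 := by
  have h : |y| ≤ √(1 + y ^ 2) := by
    rw [← Real.sqrt_sq_eq_abs]
    apply Real.sqrt_le_sqrt
    linarith
  linarith

theorem ψ_lower_right {ε : ℝ} (hε : 0 < ε) :
    ENNReal.ofReal (1 / (2 * ε)) ≤ ∫⁻ y in Ioi (0 : ℝ), ψ ε y := by
  have h1 : ∫⁻ x in Ioi (0 : ℝ), ENNReal.ofReal (Real.exp (-(2 * ε) * x))
      = ENNReal.ofReal (1 / (2 * ε)) := by
    rw [← ofReal_integral_eq_lintegral_ofReal (integrableOn_exp_mul_Ioi (by linarith) 0)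
      (ae_of_all _ fun x => (Real.exp_pos _).le), integral_exp_mul_Ioi (by linarith)]
    congr 1
    simp
  rw [← h1]
  refine setLIntegral_mono (ψ_meas ε) fun y hy => ?_
  have hy0 : 0 < y := hy
  refine ENNReal.ofReal_le_ofReal (Real.exp_le_exp.mpr ?_)
  have h2 := sqrt_le y
  rw [abs_of_pos hy0] at h2
  nlinarith

theorem ψ_lower_left {ε : ℝ} (hε : 0 < ε) :
    ENNReal.ofReal (1 / (2 * ε)) ≤ ∫⁻ y in Iic (0 : ℝ), ψ ε y := by
  have h1 : ∫⁻ x in Iic (0 : ℝ), ENNReal.ofReal (Real.exp ((2 * ε) * x))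
      = ENNReal.ofReal (1 / (2 * ε)) := by
    rw [← ofReal_integral_eq_lintegral_ofReal (integrableOn_exp_mul_Iic (by linarith) 0)
      (ae_of_all _ fun x => (Real.exp_pos _).le), integral_exp_mul_Iic (by linarith)]
    congr 1
    simp
  rw [← h1]
  refine setLIntegral_mono (ψ_meas ε) fun y hy => ?_
  have hy0 : y ≤ 0 := hy
  refine ENNReal.ofReal_le_ofReal (Real.exp_le_exp.mpr ?_)
  have h2 := sqrt_le y
  rw [abs_of_nonpos hy0] at h2
  nlinarith

theorem ψ_upper_right {ε : ℝ} (hε : 0 < ε) : ∫⁻ y in Ioi (0 : ℝ), ψ ε y < ∞ := by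
  have hi : IntegrableOn (fun y : ℝ => Real.exp (2 * ε) * Real.exp (-(2 * ε) * y)) (Ioi 0) :=
    (integrableOn_exp_mul_Ioi (by linarith) 0).const_mul _
  refine lt_of_le_of_lt (setLIntegral_mono (by fun_prop) fun y hy => ?_) hi.lintegral_lt_top
  have hy0 : 0 < y := hy
  refine ENNReal.ofReal_le_ofReal ?_
  rw [← Real.exp_add]
  refine Real.exp_le_exp.mpr ?_
  have h2 := le_sqrt y
  rw [abs_of_pos hy0] at h2
  nlinarith

theorem ψ_upper_left {ε : ℝ} (hε : 0 < ε) : ∫⁻ y in Iic (0 : ℝ), ψ ε y < ∞ := by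
  have hi : IntegrableOn (fun y : ℝ => Real.exp (2 * ε) * Real.exp ((2 * ε) * y)) (Iic 0) :=
    (integrableOn_exp_mul_Iic (by linarith) 0).const_mul _
  refine lt_of_le_of_lt (setLIntegral_mono (by fun_prop) fun y hy => ?_) hi.lintegral_lt_top
  have hy0 : y ≤ 0 := hy
  refine ENNReal.ofReal_le_ofReal ?_
  rw [← Real.exp_add]
  refine Real.exp_le_exp.mpr ?_
  have h2 := le_sqrt y
  rw [abs_of_nonpos hy0] at h2
  nlinarith

/-- The upper half-plane. -/
def H : Set ℂ := Complex.im ⁻¹' (Ioi 0)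

theorem H_compl : Hᶜ = Complex.im ⁻¹' (Iic 0) := by
  ext z; simp [H]

theorem area_H {ε : ℝ} (hε : 0 < ε) : ENNReal.ofReal (1 / (4 * ε)) ≤ area (u ε) H := by
  rw [H, area_strip ε measurableSet_Ioi]
  calc ENNReal.ofReal (1 / (4 * ε)) = ENNReal.ofReal (1 / 2) * ENNReal.ofReal (1 / (2 * ε)) := by
        rw [← ENNReal.ofReal_mul (by norm_num)]
        congr 1
        field_simp
        norm_num
    _ ≤ _ := mul_le_mul' φ_lower (ψ_lower_right hε)

theorem area_Hc {ε : ℝ} (hε : 0 < ε) : ENNReal.ofReal (1 / (4 * ε)) ≤ area (u ε) Hᶜ := by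
  rw [H_compl, area_strip ε measurableSet_Iic]
  calc ENNReal.ofReal (1 / (4 * ε)) = ENNReal.ofReal (1 / 2) * ENNReal.ofReal (1 / (2 * ε)) := by
        rw [← ENNReal.ofReal_mul (by norm_num)]
        congr 1
        field_simp
        norm_num
    _ ≤ _ := mul_le_mul' φ_lower (ψ_lower_left hε)

theorem area_finite {ε : ℝ} (hε : 0 < ε) : area (u ε) univ < ∞ := by
  have h1 : area (u ε) H < ∞ := by
    rw [H, area_strip ε measurableSet_Ioi]
    exact ENNReal.mul_lt_top φ_lt_top (ψ_upper_right hε)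
  have h2 : area (u ε) Hᶜ < ∞ := by
    rw [H_compl, area_strip ε measurableSet_Iic]
    exact ENNReal.mul_lt_top φ_lt_top (ψ_upper_left hε)
  have h3 : area (u ε) univ = area (u ε) H + area (u ε) Hᶜ := by
    have hm : MeasurableSet H := measurableSet_Ioi.preimage Complex.measurable_im
    rw [area, area, area, Measure.restrict_univ]
    exact (lintegral_add_compl _ hm).symm
  rw [h3]
  exact ENNReal.add_lt_top.mpr ⟨h1, h2⟩

/-! ### The boundary length -/

theorem frontier_H : frontier H = range ((↑) : ℝ → ℂ) := by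
  have h1 : frontier H = {z : ℂ | z.im = 0} := by
    have : H = {z : ℂ | 0 < z.im} := rfl
    rw [this, Complex.frontier_setOfPred_lt_im]
  rw [h1]
  ext z
  constructor
  · intro h
    exact ⟨z.re, Complex.ext rfl h.symm⟩
  · rintro ⟨x, rfl⟩
    exact Complex.ofReal_im x

theorem cosh_ge (x : ℝ) : (1 + x ^ 2) / 2 ≤ Real.cosh x := by
  have h1 : Real.cosh x = Real.cosh (x / 2) ^ 2 + Real.sinh (x / 2) ^ 2 := by
    rw [← Real.cosh_two_mul]; ring_nf
  have h2 := Real.cosh_sq (x / 2)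
  have h3 := one_add_sq_le (x / 2)
  nlinarith

theorem len_H (ε : ℝ) : len (u ε) H ≤ ENNReal.ofReal (2 * Real.pi) := by
  have hiso : Isometry ((↑) : ℝ → ℂ) := Complex.isometry_ofReal
  have h1 : (Measure.hausdorffMeasure 1 : Measure ℂ).restrict (frontier H)
      = Measure.map ((↑) : ℝ → ℂ) volume := by
    rw [frontier_H, ← hiso.map_hausdorffMeasure (Or.inl zero_le_one), hausdorffMeasure_real]
  rw [len, h1]
  have hc : Continuous fun z : ℂ => ENNReal.ofReal (Real.exp (u ε z)) :=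
    ENNReal.continuous_ofReal.comp (Real.continuous_exp.comp (u_smooth ε).continuous)
  rw [lintegral_map hc.measurable Complex.continuous_ofReal.measurable]
  have h2 : ∀ x : ℝ, Real.exp (u ε (x : ℂ)) = (Real.cosh x)⁻¹ := by
    intro x
    simp only [u, Complex.ofReal_re, Complex.ofReal_im]
    norm_num
    rw [Real.exp_neg, Real.exp_log (Real.cosh_pos x)]
  simp only [h2]
  have h3 : ∫⁻ x : ℝ, ENNReal.ofReal ((Real.cosh x)⁻¹)
      ≤ ∫⁻ x : ℝ, ENNReal.ofReal (2 * (1 + x ^ 2)⁻¹) := by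
    refine lintegral_mono fun x => ENNReal.ofReal_le_ofReal ?_
    have h4 := cosh_ge x
    have h5 : 0 < (1 + x ^ 2) / 2 := by positivity
    have h6 : (Real.cosh x)⁻¹ ≤ ((1 + x ^ 2) / 2)⁻¹ := by gcongr
    refine h6.trans (le_of_eq ?_)
    field_simp
  refine h3.trans (le_of_eq ?_)
  rw [← ofReal_integral_eq_lintegral_ofReal (integrable_inv_one_add_sq.const_mul 2)
    (ae_of_all _ fun x => by positivity), integral_const_mul, integral_univ_inv_one_add_sq]

theorem H_smooth : IsSmoothDomain H := by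
  refine ⟨isOpen_Ioi.preimage Complex.continuous_im, ?_, fun p _ => ⟨1, one_pos, -Complex.I,
    by simp, fun _ => 0, contDiff_const, fun z _ => ?_⟩⟩
  · have hconv : Convex ℝ H := (convex_Ioi (0 : ℝ)).is_linear_preimage Complex.imLm.isLinear
    exact ⟨⟨Complex.I, by simp [H]⟩, hconv.isPreconnected⟩
  · simp [H]

/-- For every real `M` there are a smooth function `u` on the plane with `Δ u + e^{2u} ≤ 0`, of
finite total area larger than `M`, and a smooth domain `Ω` (the upper half-plane) with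
`M L(Ω)² < A(Ω) A(ℝ² \ Ω)`. -/
theorem result (M : ℝ) : ∃ u : ℂ → ℝ, ContDiff ℝ (⊤ : ℕ∞) u ∧
    (∀ z, Δ u z + Real.exp (2 * u z) ≤ 0) ∧ area u univ < ∞ ∧ ENNReal.ofReal M < area u univ ∧
    ∃ Ω : Set ℂ, IsSmoothDomain Ω ∧
      ENNReal.ofReal M * len u Ω ^ 2 < area u Ω * area u Ωᶜ := by
  set m : ℝ := |M| + 1 with hm
  have hm1 : 1 ≤ m := by rw [hm]; linarith [abs_nonneg M]
  have hMm : M < m := by rw [hm]; linarith [le_abs_self M]
  set ε : ℝ := 1 / (40 * m) with hε
  have hε0 : 0 < ε := by positivity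
  have h4 : 1 / (4 * ε) = 10 * m := by rw [hε]; field_simp; norm_num
  have hA := area_H hε0
  have hB := area_Hc hε0
  rw [h4] at hA hB
  refine ⟨u ε, u_smooth ε, super ε hε0.le, area_finite hε0, ?_, H, H_smooth, ?_⟩
  · refine lt_of_lt_of_le ?_ (hA.trans (lintegral_mono_set (subset_univ H)))
    rw [ENNReal.ofReal_lt_ofReal_iff (by positivity)]
    linarith
  · have hpi := Real.pi_lt_four
    have hpi0 := Real.pi_pos
    have h5 : ENNReal.ofReal M * len (u ε) H ^ 2
        ≤ ENNReal.ofReal m * ENNReal.ofReal (2 * Real.pi) ^ 2 := by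
      gcongr
      exact len_H ε
    refine lt_of_le_of_lt h5 (lt_of_lt_of_le ?_ (mul_le_mul' hA hB))
    rw [← ENNReal.ofReal_pow (by positivity), ← ENNReal.ofReal_mul (by positivity),
      ← ENNReal.ofReal_mul (by positivity), ENNReal.ofReal_lt_ofReal_iff (by positivity)]
    have h6 : (2 * Real.pi) ^ 2 < 64 := by nlinarith
    nlinarith

end

end Pool.Agent.Results.MP_c070b6_an.LargeArea
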